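import Mathlib
import Pool.Agent.H.MP_71b3bb_an.Refl

set_option autoImplicit false

namespace Pool.Agent.Results.MP_71b3bb_an.Counter

open MeasureTheory
open scoped NNReal

def IsCharacter {R : Type} [CommRing R] [Algebra ℂ R] [TopologicalSpace R] (φ : R → ℂ) : Prop :=
  Continuous φ ∧ IsLinearMap ℂ φ ∧ φ ≠ 0 ∧ ∀ f g, φ (f * g) = φ f * φ g

def QuotientNotReflexive {Y : Type} [NormedAddCommGroup Y] [NormedSpace ℂ Y] (E : Set Y) : Prop :=
  IsClosed E ∧ ∃ B : Submodule ℂ Y, (B : Set Y) = E ∧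
    ¬ Function.Surjective (NormedSpace.inclusionInDoubleDual ℂ (Y ⧸ B))

section
variable {S : Type} [MetricSpace S]

def PointCharacters (A : Subalgebra ℂ C(S, ℂ)) : Prop :=
  ∀ φ : A → ℂ, IsCharacter φ → ∃! s : S, ∀ f : A, φ f = (f : C(S, ℂ)) s

def HasLogs (A : Set C(S, ℂ)) : Prop :=
  ∀ f ∈ A, (∃ g ∈ A, ∀ s, f s * g s = 1) → ∃ h ∈ A, ∀ s, f s = Complex.exp (h s)

variable [MeasurableSpace S] [BorelSpace S]

def Kset (A : Set C(S, ℂ)) (μ : FiniteMeasure S) : Set (FiniteMeasure S) :=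
  closure {ν | (ν : Measure S) ≪ (μ : Measure S) ∧
    ∀ f ∈ A, ∫ s, f s ∂(μ : Measure S) = ∫ s, f s ∂(ν : Measure S)}

def weakStarClosure (μ : Measure S) (E : Set (Lp ℂ ⊤ μ)) : Set (Lp ℂ ⊤ μ) :=
  @closure _ (TopologicalSpace.induced
    (fun (F : Lp ℂ ⊤ μ) (u : Lp ℂ 1 μ) => ∫ s, F s * u s ∂μ) Pi.topologicalSpace) E

def sums (A : Set C(S, ℂ)) (μ : Measure S) : Set (Lp ℂ ⊤ μ) :=
  {F | ∃ f ∈ A, ∃ g ∈ A, F =ᵐ[μ] fun s => f s + (starRingEnd ℂ) (g s)}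

end

open Pool.Agent.H.MP_71b3bb_an in
theorem result : ∃ (S : Type) (_ : MetricSpace S) (_ : CompactSpace S) (_ : MeasurableSpace S)
    (_ : BorelSpace S) (A : Subalgebra ℂ C(S, ℂ)) (μ : FiniteMeasure S),
    IsClosed (A : Set C(S, ℂ)) ∧ PointCharacters A ∧ HasLogs (A : Set C(S, ℂ)) ∧
      μ ∈ Set.extremePoints ℝ≥0 (Kset (A : Set C(S, ℂ)) μ) ∧
      QuotientNotReflexive (weakStarClosure (μ : Measure S) (sums (A : Set C(S, ℂ)) (μ : Measure S))) := by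
  refine ⟨S, inferInstance, inferInstance, inferInstance, inferInstance, A, ⟨μ, inferInstance⟩,
    A_closed, fun φ ⟨h1, h2, h3, h4⟩ => chars ⟨h2.mk' φ, h1⟩ (fun e => h3 ?_) h4,
    fun f hf ⟨g, hg, h⟩ => logs f hf g hg (ContinuousMap.ext h), ?_,
    (congrArg IsClosed B_eq).mp B_closed, B, B_eq, B_nonrefl⟩
  · exact funext fun f => DFunLike.congr_fun e f
  have key : ∀ ν ∈ Kset (A : Set C(S, ℂ)) (⟨μ, inferInstance⟩ : FiniteMeasure S), ∀ f ∈ A,
      ∫ s, f s ∂(ν : Measure S) = ∫ s, f s ∂μ := by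
    intro ν hν f hf
    refine closure_minimal (t := {ν : FiniteMeasure S | ∫ s, f s ∂(ν : Measure S) = ∫ s, f s ∂μ})
      (fun ν hν => (hν.2 f hf).symm) (isClosed_eq ?_ continuous_const) hν
    exact continuous_iff_continuousAt.mpr fun ν =>
      (FiniteMeasure.tendsto_iff_forall_integral_rclike_tendsto ℂ).mp Filter.tendsto_id
        (BoundedContinuousFunction.mkOfCompact f)
  refine ⟨subset_closure ⟨Measure.AbsolutelyContinuous.rfl, fun _ _ => rfl⟩, ?_⟩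
  rintro ν₁ h₁ ν₂ - ⟨a, b, ha, hb, -, h⟩
  refine FiniteMeasure.toMeasure_injective (uniq ν₁ a⁻¹ ?_ (key ν₁ h₁))
  have e : a • (ν₁ : Measure S) + b • (ν₂ : Measure S) = μ := congrArg FiniteMeasure.toMeasure h
  rw [← e, smul_add, smul_smul, inv_mul_cancel₀ ha.ne', one_smul]
  exact Measure.le_add_right le_rfl

end Pool.Agent.Results.MP_71b3bb_an.Counter
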